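import Pool.Agent.Y916.Af.Stm

/-!
# Project AF: growth of the span of the monomials of bounded degree
-/

set_option autoImplicit false

open Module AlgebraicIndependent
open scoped Pointwise

namespace Pool.Agent.Y185.AF

open Pool.Agent.Y916.Af

section

variable {F Ω : Type} [Field F] [Field Ω] [Algebra F Ω]

theorem finrank_mul_le (A B : Submodule F Ω) [FiniteDimensional F A] [FiniteDimensional F B] :
    finrank F (A * B : Submodule F Ω) ≤ finrank F A * finrank F B := by
  rw [← Submodule.mulMap_range, ← Module.finrank_tensorProduct]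
  exact LinearMap.finrank_range_le _

theorem fd_mul (A B : Submodule F Ω) (hA : FiniteDimensional F A) (hB : FiniteDimensional F B) :
    FiniteDimensional F (A * B : Submodule F Ω) := by
  rw [← Submodule.mulMap_range]
  infer_instance

theorem fd_prod {σ : Type} (s : Finset σ) (M : σ → Submodule F Ω)
    (h : ∀ i, FiniteDimensional F (M i)) : FiniteDimensional F (∏ i ∈ s, M i : Submodule F Ω) := by
  classical
  induction s using Finset.induction_on with
  | empty =>
    rw [Finset.prod_empty, Submodule.one_eq_span]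
    infer_instance
  | insert a s ha ih =>
    rw [Finset.prod_insert ha]
    exact fd_mul _ _ (h a) ih

theorem fd_pow (A : Submodule F Ω) (hA : FiniteDimensional F A) (e : ℕ) :
    FiniteDimensional F (A ^ e : Submodule F Ω) := by
  induction e with
  | zero =>
    rw [pow_zero, Submodule.one_eq_span]
    infer_instance
  | succ e ih =>
    rw [pow_succ]
    exact fd_mul _ _ ih hA

theorem one_le_prod {σ : Type} (s : Finset σ) (M : σ → Submodule F Ω)
    (h : ∀ i, 1 ≤ M i) : 1 ≤ (∏ i ∈ s, M i : Submodule F Ω) := by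
  classical
  induction s using Finset.induction_on with
  | empty =>
    rw [Finset.prod_empty]
  | insert a s ha ih =>
    rw [Finset.prod_insert ha]
    calc (1 : Submodule F Ω) = 1 * 1 := (one_mul 1).symm
      _ ≤ _ := mul_le_mul' (h a) ih

theorem mem_set_pow (B : Finset Ω) (e : ℕ) : ∀ x ∈ (insert 1 (B : Set Ω)) ^ e,
    ∃ m : B → ℕ, (∀ b, m b ≤ e) ∧ x = ∏ b : B, (b : Ω) ^ m b := by
  classical
  induction e with
  | zero =>
    intro x hx
    rw [pow_zero, Set.mem_one] at hx
    exact ⟨fun _ => 0, fun _ => le_rfl, by simp [hx]⟩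
  | succ e ih =>
    intro x hx
    rw [pow_succ] at hx
    obtain ⟨y, hy, z, hz, rfl⟩ := hx
    obtain ⟨m, hm, rfl⟩ := ih y hy
    rcases hz with rfl | hz
    · exact ⟨m, fun b => (hm b).trans (Nat.le_succ e), by simp⟩
    · refine ⟨fun b => m b + (if b = ⟨z, hz⟩ then 1 else 0), fun b => ?_, ?_⟩
      · have := hm b
        dsimp only
        split_ifs <;> omega
      · simp only [pow_add, Finset.prod_mul_distrib]
        congr 1
        rw [Finset.prod_eq_single ⟨z, hz⟩]
        · simp
        · intro b _ hb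
          simp [hb]
        · intro h
          exact absurd (Finset.mem_univ _) h

theorem finrank_pow_le (B : Finset Ω) (e : ℕ) :
    finrank F (Submodule.span F (insert 1 (B : Set Ω)) ^ e : Submodule F Ω) ≤
      (e + 1) ^ B.card := by
  classical
  have h : (Submodule.span F (insert 1 (B : Set Ω)) ^ e : Submodule F Ω) ≤
      Submodule.span F (Set.range fun m : B → Fin (e + 1) => ∏ b : B, (b : Ω) ^ (m b : ℕ)) := by
    rw [Submodule.span_pow]
    refine Submodule.span_mono fun x hx => ?_
    obtain ⟨m, hm, rfl⟩ := mem_set_pow B e x hx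
    exact ⟨fun b => ⟨m b, Nat.lt_succ_of_le (hm b)⟩, rfl⟩
  have : FiniteDimensional F (Submodule.span F (Set.range fun m : B → Fin (e + 1) =>
      ∏ b : B, (b : Ω) ^ (m b : ℕ))) := FiniteDimensional.span_of_finite F (Set.finite_range _)
  refine (Submodule.finrank_mono h).trans ((finrank_range_le_card _).trans (le_of_eq ?_))
  rw [Fintype.card_fun, Fintype.card_fin, Fintype.card_coe]

theorem one_le_V (B : Set Ω) : 1 ≤ (Submodule.span F (insert 1 B) : Submodule F Ω) :=
  Submodule.one_le.2 (Submodule.subset_span (Set.mem_insert _ _))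

theorem pow_mono (A : Submodule F Ω) (h : 1 ≤ A) {a b : ℕ} (hab : a ≤ b) : A ^ a ≤ A ^ b :=
  pow_le_pow_right' h hab

theorem one_mem_pow (A : Submodule F Ω) (h : 1 ≤ A) (a : ℕ) : (1 : Ω) ∈ A ^ a := by
  have h1 := pow_mono A h (Nat.zero_le a)
  rw [pow_zero] at h1
  exact h1 (Submodule.one_le.1 le_rfl)

theorem mem_pow_of_mem_adjoin (B : Set Ω) {a : Ω} (ha : a ∈ Algebra.adjoin F B) :
    ∃ e, a ∈ (Submodule.span F (insert 1 B) : Submodule F Ω) ^ e := by
  have h1 := one_le_V (F := F) B
  induction ha using Algebra.adjoin_induction with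
  | mem x hx =>
    exact ⟨1, by rw [pow_one]; exact Submodule.subset_span (Set.mem_insert_of_mem _ hx)⟩
  | algebraMap r =>
    refine ⟨0, ?_⟩
    rw [pow_zero]
    exact Submodule.algebraMap_mem r
  | add x y _ _ hx hy =>
    obtain ⟨e, he⟩ := hx
    obtain ⟨f, hf⟩ := hy
    exact ⟨max e f, add_mem (pow_mono _ h1 (le_max_left _ _) he)
      (pow_mono _ h1 (le_max_right _ _) hf)⟩
  | mul x y _ _ hx hy =>
    obtain ⟨e, he⟩ := hx
    obtain ⟨f, hf⟩ := hy
    exact ⟨e + f, by rw [pow_add]; exact Submodule.mul_mem_mul he hf⟩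

theorem exists_M (B : Set Ω) (u : Ω) (hu : IsIntegral (Algebra.adjoin F B) u) :
    ∃ (b : ℕ) (M : Submodule F Ω), FiniteDimensional F M ∧ 1 ≤ M ∧
      Submodule.span F {u} * M ≤ (Submodule.span F (insert 1 B) : Submodule F Ω) ^ b * M := by
  obtain ⟨p, hp, hpu⟩ := hu
  set d := p.natDegree with hd
  have hV := one_le_V (F := F) B
  have hd1 : 1 ≤ d := by
    rcases Nat.eq_zero_or_pos d with h | h
    · exfalso
      rw [hp.natDegree_eq_zero.1 (hd.symm.trans h)] at hpu
      simp at hpu
    · exact h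
  choose e he using fun i => mem_pow_of_mem_adjoin B (p.coeff i).2
  refine ⟨∑ i ∈ Finset.range d, e i, Submodule.span F (Set.range fun i : Fin d => u ^ (i : ℕ)),
    FiniteDimensional.span_of_finite F (Set.finite_range _), ?_, ?_⟩
  · exact Submodule.one_le.2 (Submodule.subset_span ⟨⟨0, hd1⟩, by simp⟩)
  · rw [Submodule.span_mul_span, Submodule.span_le]
    rintro x ⟨y, hy, z, ⟨i, rfl⟩, rfl⟩
    rw [Set.mem_singleton_iff] at hy
    subst hy
    simp only [SetLike.mem_coe]
    rcases Nat.lt_or_ge ((i : ℕ) + 1) d with hi | hi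
    · rw [show y * y ^ (i : ℕ) = 1 * y ^ ((i : ℕ) + 1) by ring]
      exact Submodule.mul_mem_mul (one_mem_pow _ hV _) (Submodule.subset_span ⟨⟨i + 1, hi⟩, rfl⟩)
    · have hid : (i : ℕ) + 1 = d := le_antisymm (Nat.succ_le_of_lt i.2) hi
      have h2 : y * y ^ (i : ℕ) = - ∑ j ∈ Finset.range d, (p.coeff j : Ω) * y ^ j := by
        rw [Polynomial.eval₂_eq_sum_range, Finset.sum_range_succ, ← hd] at hpu
        have h3 : p.coeff d = 1 := hp.coeff_natDegree
        rw [h3, map_one, one_mul] at hpu
        rw [← pow_succ', hid]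
        exact eq_neg_of_add_eq_zero_right hpu
      rw [h2]
      refine neg_mem (sum_mem fun j hj => ?_)
      refine Submodule.mul_mem_mul ?_
        (Submodule.subset_span ⟨⟨j, Finset.mem_range.1 hj⟩, rfl⟩)
      exact pow_mono _ hV (Finset.single_le_sum (f := e) (fun _ _ => Nat.zero_le _) hj) (he j)

theorem exists_q {σ : Type} [Fintype σ] (B : Set Ω) (v : σ → Ω)
    (h : ∀ s, IsAlgebraic (Algebra.adjoin F B) (v s)) :
    ∃ q ∈ Algebra.adjoin F B, q ≠ 0 ∧ ∀ s, IsIntegral (Algebra.adjoin F B) (q * v s) := by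
  classical
  choose y hy0 hy using fun s => (h s).exists_integral_multiple
  refine ⟨((∏ s, y s : Algebra.adjoin F B) : Ω), (∏ s, y s : Algebra.adjoin F B).2, ?_, fun s => ?_⟩
  · intro h0
    have h1 : (∏ s, y s : Algebra.adjoin F B) = 0 := Subtype.ext h0
    rw [Finset.prod_eq_zero_iff] at h1
    obtain ⟨s, _, hs⟩ := h1
    exact hy0 s hs
  · rw [← Finset.mul_prod_erase Finset.univ y (Finset.mem_univ s)]
    have h2 : ((y s * ∏ x ∈ Finset.univ.erase s, y x : Algebra.adjoin F B) : Ω) * v s =
        ((∏ x ∈ Finset.univ.erase s, y x : Algebra.adjoin F B) : Ω) * (y s • v s) := by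
      rw [Subalgebra.smul_def, smul_eq_mul]
      push_cast
      ring
    rw [h2]
    exact IsIntegral.mul isIntegral_algebraMap (hy s)

theorem main_le {σ : Type} [Fintype σ] (B : Set Ω) (v : σ → Ω)
    (h : ∀ s, IsAlgebraic (Algebra.adjoin F B) (v s)) :
    ∃ (c : ℕ) (M : Submodule F Ω), FiniteDimensional F M ∧ ∃ q : Ω, q ≠ 0 ∧ ∀ D : ℕ,
      ∀ z ∈ mons v D, q ^ D * z ∈ (Submodule.span F (insert 1 B) : Submodule F Ω) ^ (c * D) * M := by
  classical
  obtain ⟨q, hqB, hq0, hqi⟩ := exists_q B v h
  obtain ⟨eq, heq⟩ := mem_pow_of_mem_adjoin B hqB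
  choose b M hM1 hM2 hM3 using fun s => exists_M B (q * v s) (hqi s)
  have hV := one_le_V (F := F) B
  set V : Submodule F Ω := Submodule.span F (insert 1 B) with hVd
  set c := eq + ∑ s, b s with hc
  set MM : Submodule F Ω := ∏ s, M s with hMM
  have hMM1 : 1 ≤ MM := one_le_prod _ _ hM2
  set U : Submodule F Ω := Submodule.span F (insert q (Set.range fun s => q * v s)) with hU
  have hUM : U * MM ≤ V ^ c * MM := by
    rw [Submodule.mul_le]
    intro x hx m hm
    induction hx using Submodule.span_induction with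
    | mem x hx =>
      rcases hx with rfl | ⟨s, rfl⟩
      · exact Submodule.mul_mem_mul (pow_mono V hV (by omega) heq) hm
      · have h1 : Submodule.span F {q * v s} * MM ≤ V ^ b s * MM := by
          rw [hMM, ← Finset.mul_prod_erase Finset.univ M (Finset.mem_univ s), ← mul_assoc,
            ← mul_assoc]
          exact mul_le_mul' (hM3 s) le_rfl
        have h2 : V ^ b s * MM ≤ V ^ c * MM := by
          refine mul_le_mul' (pow_mono V hV ?_) le_rfl
          have := Finset.single_le_sum (f := b) (fun _ _ => Nat.zero_le _) (Finset.mem_univ s)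
          omega
        exact h2 (h1 (Submodule.mul_mem_mul (Submodule.mem_span_singleton_self _) hm))
    | zero => rw [zero_mul]; exact zero_mem _
    | add x y _ _ hx hy => rw [add_mul]; exact add_mem hx hy
    | smul a x _ hx => rw [smul_mul_assoc]; exact Submodule.smul_mem _ _ hx
  have hUD : ∀ D : ℕ, U ^ D * MM ≤ V ^ (c * D) * MM := by
    intro D
    induction D with
    | zero => simp
    | succ D ih =>
      calc U ^ (D + 1) * MM = U ^ D * (U * MM) := by rw [pow_succ, mul_assoc]
        _ ≤ U ^ D * (V ^ c * MM) := mul_le_mul' le_rfl hUM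
        _ = V ^ c * (U ^ D * MM) := by rw [← mul_assoc, mul_comm (U ^ D), mul_assoc]
        _ ≤ V ^ c * (V ^ (c * D) * MM) := mul_le_mul' le_rfl ih
        _ = V ^ (c * (D + 1)) * MM := by rw [← mul_assoc, ← pow_add]; congr 2; ring
  refine ⟨c, MM, fd_prod _ _ hM1, q, hq0, ?_⟩
  rintro D z ⟨n, hn, rfl⟩
  apply hUD D
  rw [← mul_one (q ^ D * ∏ s, v s ^ n s)]
  refine Submodule.mul_mem_mul ?_ (Submodule.one_le.1 hMM1)
  have h4 : ∏ s, (q * v s) ^ n s ∈ U ^ (∑ s, n s) := by
    have h6 : ∀ s : Finset σ, ∏ i ∈ s, (q * v i) ^ n i ∈ U ^ (∑ i ∈ s, n i) := by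
      intro s
      induction s using Finset.induction_on with
      | empty =>
        rw [Finset.prod_empty, Finset.sum_empty, pow_zero]
        exact Submodule.one_le.1 le_rfl
      | insert a s ha ih =>
        rw [Finset.prod_insert ha, Finset.sum_insert ha, pow_add]
        have h7 : q * v a ∈ U :=
          Submodule.subset_span (Set.mem_insert_of_mem _ (Set.mem_range_self a))
        exact Submodule.mul_mem_mul (Submodule.pow_mem_pow _ h7 _) ih
    exact h6 Finset.univ
  have h5 : q ^ D * ∏ s, v s ^ n s = q ^ (D - ∑ s, n s) * ∏ s, (q * v s) ^ n s := by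
    simp only [mul_pow, Finset.prod_mul_distrib]
    rw [Finset.prod_pow_eq_pow_sum, ← mul_assoc, ← pow_add, Nat.sub_add_cancel hn]
  rw [h5, show U ^ D = U ^ (D - ∑ s, n s) * U ^ (∑ s, n s) by
    rw [← pow_add, Nat.sub_add_cancel hn]]
  exact Submodule.mul_mem_mul (Submodule.pow_mem_pow _
    (Submodule.subset_span (Set.mem_insert _ _)) _) h4

end

theorem t_hf : S_hf := by
  intro F Ω _ _ _ σ _ v n hn
  obtain ⟨B, hB⟩ := (matroid F Ω).exists_isBasis (Set.range v) (Set.subset_univ _)
  have hBn : B.encard ≤ n := hB.encard_eq_eRk.le.trans hn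
  obtain ⟨hB1, hB2, hB3⟩ := matroid_isBasis_iff.1 hB
  have hBf : B.Finite := Set.finite_of_encard_le_coe hBn
  obtain ⟨B, rfl⟩ := hBf.exists_finset_coe
  rw [Set.encard_coe_eq_coe_finsetCard, Nat.cast_le] at hBn
  obtain ⟨c, M, hM, q, hq, h⟩ := main_le (F := F) (B : Set Ω) v (fun s => hB3 _ ⟨s, rfl⟩)
  refine ⟨(c + 1) ^ B.card * finrank F M, fun D => ?_⟩
  set V : Submodule F Ω := Submodule.span F (insert 1 (B : Set Ω)) with hV
  have hVf : FiniteDimensional F V :=
    FiniteDimensional.span_of_finite F (B.finite_toSet.insert 1)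
  have hVD : FiniteDimensional F (V ^ (c * D) : Submodule F Ω) := fd_pow _ hVf _
  have hVM : FiniteDimensional F (V ^ (c * D) * M : Submodule F Ω) := fd_mul _ _ hVD hM
  have hinj : Function.Injective (LinearMap.mulLeft F (q ^ D)) :=
    mul_right_injective₀ (pow_ne_zero D hq)
  have h1 : Submodule.map (LinearMap.mulLeft F (q ^ D)) (Submodule.span F (mons v D)) ≤
      V ^ (c * D) * M := by
    rw [Submodule.map_span, Submodule.span_le]
    rintro x ⟨z, hz, rfl⟩
    exact h D z hz
  calc finrank F (Submodule.span F (mons v D))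
      = finrank F (Submodule.map (LinearMap.mulLeft F (q ^ D)) (Submodule.span F (mons v D))) :=
        (LinearEquiv.finrank_eq (Submodule.equivMapOfInjective _ hinj _))
    _ ≤ finrank F (V ^ (c * D) * M : Submodule F Ω) := Submodule.finrank_mono h1
    _ ≤ finrank F (V ^ (c * D) : Submodule F Ω) * finrank F M := finrank_mul_le _ _
    _ ≤ (c * D + 1) ^ B.card * finrank F M := Nat.mul_le_mul_right _ (finrank_pow_le B _)
    _ ≤ ((c + 1) * (D + 1)) ^ B.card * finrank F M := by
        refine Nat.mul_le_mul_right _ (Nat.pow_le_pow_left ?_ _)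
        nlinarith
    _ = (c + 1) ^ B.card * finrank F M * (D + 1) ^ B.card := by
        rw [mul_pow]; ring
    _ ≤ (c + 1) ^ B.card * finrank F M * (D + 1) ^ n :=
        Nat.mul_le_mul_left _ (Nat.pow_le_pow_right (Nat.succ_pos D) hBn)

end Pool.Agent.Y185.AF
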